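import Pool.Agent.Lib.L1S.PQ.Stm
import Pool.Agent.Lib.L1S.QMain

/-!
# The equivalence of the two forms of the statement (quasi-split groups)
-/

namespace Pool.Agent.Lib.L1S.PQ

open MeasureTheory Matrix NumberField IsDedekindDomain

noncomputable section

variable {ι M N : Type} [Fintype ι] [DecidableEq ι] [AddCommGroup M] [Module ℚ M] [AddCommGroup N] [Module ℚ N]
  {P : RootPairing ι ℚ M N} [P.IsCrystallographic] {b : P.Base} {K L : Type} [Field K] [NumberField K] [Field L] [NumberField L] [Algebra K L] (Q : QS b K L)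

/-- The action of the Galois group in the form of QStm.lean. -/
def old : L1S.QS b K L := ⟨Q.act, fun s => ⟨(Q.da s).base, (Q.da s).pair⟩⟩

theorem gl_eq : GL' b L = L1S.GQ b L := rfl

theorem gq_eq : GQ Q = L1S.HQ (old Q) := rfl

/-- The closure of `G(L)`. -/
abbrev G0 (b : P.Base) (L : Type) [Field L] [NumberField L] : Subgroup (GL (b.support ⊕ ι) (mixedEmbedding.mixedSpace L)) := Cl (GeneralLinearGroup.map (mixedEmbedding L)) (GL' b L)

theorem g0_eq : G0 b L = L1S.GE b L := rfl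

/-- The real group. -/
abbrev G1 : Subgroup (G0 b L) := Cl (em (GeneralLinearGroup.map (mixedEmbedding L)) (GL' b L)) (GQ Q)

theorem g1_eq : G1 Q = L1S.HRs (L1S.HQ (old Q)) := rfl

/-- The height. -/
abbrev h0 (b : P.Base) : b.support ⊕ ι → ℤ := Sum.elim (fun _ => 0) b.height

/-- The unipotent group. -/
abbrev U1 : Subgroup (G1 Q) := (Uni (h0 b) (G0 b L)).subgroupOf (G1 Q)

theorem u1_eq : U1 Q = L1S.UHR (L1S.HQ (old Q)) := rfl

theorem em_eq (g : GQ Q) : em (em (GeneralLinearGroup.map (mixedEmbedding L)) (GL' b L)) (GQ Q) g = L1S.embH (L1S.HQ (old Q)) g := rfl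

variable (𝔫 : Ideal (𝓞 K)) (v : HeightOneSpectrum (𝓞 K)) (r s : ℕ)

theorem gamA_eq : GamA 𝔫 v r s (h0 b) (GL' b L) = L1S.GamL b L 𝔫 v r s := by
  ext g
  exact ⟨fun h i j => ⟨h.1 i j, h.2 i j⟩, fun h => ⟨fun i j => (h i j).1, fun i j => (h i j).2⟩⟩

theorem gam_eq : Gam 𝔫 v r s (h0 b) (em (em (GeneralLinearGroup.map (mixedEmbedding L)) (GL' b L)) (GQ Q)) = L1S.GamHR (L1S.HQ (old Q)) 𝔫 v r s := by
  unfold Gam
  rw [gamA_eq]
  rfl

section

variable [P.IsRootSystem]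

theorem sz_of {c c' : b.support → ℤ} (h : Sz b (Ideal.absNorm 𝔫) (Ideal.absNorm v.asIdeal) r s c c') : L1S.Sz2 b 𝔫 v r s c c' := h

theorem aut_of {μ : Measure (L1S.HRt (L1S.HQ (old Q)))} {D : Set (L1S.HRt (L1S.HQ (old Q)))} {φ F : L1S.HRt (L1S.HQ (old Q)) → ℂ} (h : Aut (L1S.GamHR (L1S.HQ (old Q)) 𝔫 v r s) μ D φ F) :
    L1S.AutH (L1S.HQ (old Q)) 𝔫 v r s μ D φ F := ⟨h.cont, h.inv, h.l2, h.eig⟩

theorem genQ_of {θ : b.support → (mixedEmbedding.mixedSpace L →ₗ[ℝ] ℝ)}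
    (h : Gen (U1 Q) (mixedEmbedding L) (Gam 𝔫 v r s (h0 b) (em (em (GeneralLinearGroup.map (mixedEmbedding L)) (GL' b L)) (GQ Q))) (fun i => (Sum.inl i, Sum.inr (P.reflectionPerm i i))) (fun s => sp (Q.da s)) θ) :
    L1S.GenQ (old Q) 𝔫 v r s θ := by
  refine ⟨h.1, fun u hu => h.2 u ?_⟩
  rw [gam_eq]
  exact hu

theorem inRange_of {Ω : Set (GL (b.support ⊕ ι) (mixedEmbedding.mixedSpace L))} {A : M →ₗ[ℚ] ℝ} {x : G1 Q} (h : InRange (U1 Q) Ω (Sum.elim (fun _ => 0) fun β => A (P.root β)) x) :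
    L1S.InRangeH (L1S.HQ (old Q)) Ω A x := by
  obtain ⟨u, ω, hω, e⟩ := h
  refine ⟨u, ω, hω, ?_⟩
  rw [e]
  have e1 : (Matrix.diagonal fun i => algebraMap ℝ (mixedEmbedding.mixedSpace L) (Real.exp ((Sum.elim (fun _ => 0) fun β => A (P.root β) : b.support ⊕ ι → ℝ) i))) = L1S.dg b L A := by
    unfold L1S.dg
    refine congrArg _ (funext fun i => ?_)
    rcases i with i | β
    · simp
    · rfl
  rw [e1]

/-- **(C)**. -/
theorem ex [P.IsReduced] [P.IsIrreducible] [IsGalois K L] : Ex K (h0 b) (GL' b L) (GQ Q) {w | ∃ c, (∀ s i, c (sp (Q.da s) i) = c i) ∧ w = wt b c} := by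
  rintro v 𝔫 hv r s _ ⟨c, hc, rfl⟩ π hπ
  exact (L1S.statementQ (old Q)).1 v 𝔫 hv r s c hc π hπ

/-- **(A), (B)**. -/
theorem est [P.IsReduced] [P.IsIrreducible] [IsGalois K L] :
    EstCl K (h0 b) (GQ Q) (mixedEmbedding L) (fun i => (Sum.inl i, Sum.inr (P.reflectionPerm i i))) (fun s => sp (Q.da s)) (Adm Q) := by
  intro m1 hm1 m2 hm2 μ hμ φ hφ cφ Ω hΩ
  obtain rfl : m1 = borel _ := hm1.measurable_eq
  obtain rfl : m2 = borel _ := hm2.measurable_eq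
  have st := (L1S.statementQ (old Q)).2
  obtain ⟨C, hC⟩ := @st μ hμ φ hφ cφ Ω hΩ
  refine ⟨C, ?_⟩
  rintro v 𝔫 h𝔫 hv r s m w q d X ⟨c, A, hc, hinv, hdom, hsz, hiA, hA, hw, hq, rfl, rfl⟩ π hπ h hh θ hθ x hx ν hν D hD M' F hF horth a
  obtain rfl : w = fun k => wt b (c k) := funext hw
  obtain rfl : q = fun k => (Ideal.absNorm v.asIdeal : ℝ) ^ (∑ β with 0 < b.height β, pr b (c k) β) := funext hq
  have hθ' := genQ_of Q 𝔫 v r s hθ
  rw [gam_eq] at hD hF ⊢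
  have k1 := hC v 𝔫 h𝔫 hv r s m c hc hinv hdom (fun k k' => hsz k k') π hπ h hh θ hθ' A hiA hA x (inRange_of Q hx)
  have key := @k1 ν hν D hD M' F (fun l => aut_of Q 𝔫 v r s (hF l)) horth a
  refine ⟨fun D' hD' => ?_, fun hl t ht D' hD' => ?_⟩
  · refine (key.1 D' hD').trans (le_of_eq ?_)
    simp only [_root_.zpow_neg]
    rw [mul_comm C, mul_assoc]
    rfl
  · refine (key.2 hl t ht D' hD').trans (le_of_eq ?_)
    rw [mul_comm C, mul_assoc]
    rfl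

/-- **The density theorem**. -/
theorem density [P.IsReduced] [P.IsIrreducible] [IsGalois K L] : Density Q := ⟨ex Q, est Q⟩

end

end

end Pool.Agent.Lib.L1S.PQ
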