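import Mathlib

/-!
# The density theorem for the globally generic spectrum of every quasi-split group: the statement

`P` is an irreducible reduced crystallographic root system with base `b`, `L / K` a finite Galois extension of number fields and `Q : QS b K L` an action of the Galois group on the Dynkin diagram of `P`. The definitions
are made in general in sections 1 (a group `G` with subgroups `Γ`, `U`; closures of images of subgroups), 2 (groups of matrices over `L`, their closures in matrix groups over a ring `R`) and 3 (levels, Hecke elements,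
the general form `Est` of the statement); section 4 has the combinatorics of the root system and section 5 (`Density`) the statement for the quasi-split group `G(K)` of type `(P, Q)`. The matrices are then indexed by
`b.support ⊕ ι` (`ι` the set of roots): this is the adjoint representation of Geck's construction of the simple Lie algebra of `P` (`RootPairing.GeckConstruction`), with the Chevalley generators `e_i`, `f_i`;
`G(L)` is generated by the `exp(t e_i)`, `exp(t f_i)`, `t ∈ L`; `s ∈ Gal(L/K)` acts on the matrices over `L` by `τ_s(X) = D_s s(X) D_s⁻¹`, `D_s` the permutation matrix of `s`; `G(K)` is generated by the unipotent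
upper and the unipotent lower elements of `G(L)` which are fixed by all `τ_s`: it is the image in the adjoint group of the `K`-points of the simply connected quasi-split group of type `(P, Q)`. For `L = K` it is the
split group. `R = L ⊗ ℝ`.
-/

namespace Pool.Agent.Lib.L1S.PQ

open MeasureTheory Matrix NumberField IsDedekindDomain

noncomputable section

set_option linter.unusedSectionVars false

/-! ## 1. Groups -/

section groups

variable {G : Type} [Group G]

/-- **Hecke operators**: `F` is an eigenfunction with the eigenvalue `t` of the operator of the double coset `Γ h Γ`: `∑ F (w x) = t F (x)`, the sum over `w ∈ Γ \ Γ h Γ`. -/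
def IsT (Γ : Subgroup G) (h : G) (F : G → ℂ) (t : ℂ) : Prop :=
  ∃ S : Finset G, (∀ w ∈ S, ∃ γ ∈ Γ, ∃ γ' ∈ Γ, w = γ * h * γ') ∧ (∀ w, (∃ γ ∈ Γ, ∃ γ' ∈ Γ, w = γ * h * γ') → ∃! w', w' ∈ S ∧ w * w'⁻¹ ∈ Γ) ∧ ∀ x, ∑ w ∈ S, F (w * x) = t * F x

/-- `h⁻¹ Γ h ∩ U` as a subgroup of `U`. -/
def GamH (Γ U : Subgroup G) (h : G) : Subgroup U := (Γ.comap (MulAut.conj h).toMonoidHom).subgroupOf U

/-- `D` is a fundamental domain for `Γ`, which acts on `G` by left multiplication. -/
def IsFD [MeasurableSpace G] (Γ : Subgroup G) (D : Set G) (μ : Measure G) : Prop := IsFundamentalDomain Γ D μ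

/-- **The Whittaker coefficient** of `F` at `x`: the mean value of `F (u x) ψ(u)⁻¹` over `D`, a fundamental domain for a discrete subgroup of `U`. -/
def Wh (U : Subgroup G) [MeasurableSpace U] (ν : Measure U) (D : Set U) (ψ : U → ℂ) (F : G → ℂ) (x : G) : ℂ := ⨍ u in D, F (u.1 * x) * star (ψ u) ∂ν

variable [TopologicalSpace G] [MeasurableSpace G]

/-- Continuous functions in `L²(Γ \ G)` (`D` a fundamental domain) which are eigenfunctions of the convolution operator of `φ` with eigenvalue at least one in absolute value: `∫ F (x y) φ (y) dy = c F (x)`, `|c| ≥ 1`. -/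
structure Aut (Γ : Subgroup G) (μ : Measure G) (D : Set G) (φ F : G → ℂ) : Prop where
  cont : Continuous F
  inv : ∀ γ ∈ Γ, ∀ x, F (γ * x) = F x
  l2 : MemLp F 2 (μ.restrict D)
  eig : ∃ c : ℂ, 1 ≤ ‖c‖ ∧ ∀ x, ∫ y, F (x * y) * φ y ∂μ = c * F x

/-- **The two inequalities** at a point `x` for the Hecke elements `h_k` with the weights `q_k`: for orthonormal `F_1, …, F_m` in `L²(Γ \ G)` and complex numbers `a_k`
(A) `∑_l |∑_k a_k W_k(F_l)|² ≤ (∑_k |a_k|² q_k⁻¹) X`, `W_k(F)` the Whittaker coefficient of `F (h_k ·)` at `x` (mean value over `(h_k⁻¹ Γ h_k ∩ U) \ U`);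
(B) if `lev` holds and `t_{l,k}` is the eigenvalue on `F_l` of the Hecke operator of `Γ h_k Γ`, then `∑_l |∑_k a_k t_{l,k}|² |W(F_l)|² ≤ (∑_k |a_k|² q_k) X`, `W(F)` the Whittaker coefficient of `F` at `x`. -/
def Bounds (U Γ : Subgroup G) [MeasurableSpace U] (lev : Prop) (μ : Measure G) (ν : Measure U) (φ : G → ℂ) (ψ : U → ℂ) (x : G) (m : ℕ) (h : Fin m → G) (q : Fin m → ℝ) (X : ℝ) : Prop :=
  ∀ D : Set G, IsFD Γ D μ → ∀ (M : ℕ) (F : Fin M → G → ℂ), (∀ l, Aut Γ μ D φ (F l)) → (∀ l k, ∫ x in D, star (F l x) * F k x ∂μ = if l = k then 1 else 0) → ∀ a : Fin m → ℂ,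
    (∀ D' : Fin m → Set U, (∀ k, IsFD (GamH Γ U (h k)) (D' k) ν) →
      ∑ l, ‖∑ k, a k * Wh U ν (D' k) ψ (fun y => F l (h k * y)) x‖ ^ 2 ≤ (∑ k, ‖a k‖ ^ 2 * (q k)⁻¹) * X) ∧
    (lev → ∀ t : Fin M → Fin m → ℂ, (∀ l k, IsT Γ (h k) (F l) (t l k)) → ∀ D' : Set U, IsFD (Γ.subgroupOf U) D' ν →
      ∑ l, ‖∑ k, a k * t l k‖ ^ 2 * ‖Wh U ν D' ψ (F l) x‖ ^ 2 ≤ (∑ k, ‖a k‖ ^ 2 * q k) * X)

end groups

section closures

variable {A B : Type} [Group A] [Group B] [TopologicalSpace B] [IsTopologicalGroup B]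

/-- The closure of the image of `H` under the homomorphism `τ`. -/
def Cl (τ : A →* B) (H : Subgroup A) : Subgroup B := (H.map τ).topologicalClosure

/-- The homomorphism `τ` from `H` to the closure of its image. -/
def em (τ : A →* B) (H : Subgroup A) : H →* Cl τ H where
  toFun g := ⟨τ g.1, Subgroup.le_topologicalClosure _ ⟨g.1, g.2, rfl⟩⟩
  map_one' := Subtype.ext (map_one τ)
  map_mul' _ _ := Subtype.ext (map_mul τ _ _)

end closures

/-! ## 2. Groups of matrices -/

section matrices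

variable {n : Type} [Fintype n] [DecidableEq n]

/-- The subgroup of `GL(K)` generated by the `exp(t e_i)` and the `exp(t f_i)`, `t ∈ K`. -/
def Grp {J : Type} (e f : J → Matrix n n ℚ) (K : Type) [Field K] [CharZero K] : Subgroup (GL n K) :=
  Subgroup.closure {g | ∃ (i : J) (t : K), g.1 = IsNilpotent.exp (t • (e i).map (algebraMap ℚ K)) ∨ g.1 = IsNilpotent.exp (t • (f i).map (algebraMap ℚ K))}

variable {R : Type} [CommRing R]

variable (ht : n → ℤ)

theorem uni_mul {g h : Matrix n n R} (hg : ∀ r c, ht r ≤ ht c → g r c = (1 : Matrix n n R) r c) (hh : ∀ r c, ht r ≤ ht c → h r c = (1 : Matrix n n R) r c) (r c : n) (hrc : ht r ≤ ht c) :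
    (g * h) r c = (1 : Matrix n n R) r c := by
  rw [Matrix.mul_apply, Finset.sum_eq_single r]
  · rw [hg r r le_rfl, hh r c hrc, Matrix.one_apply_eq, one_mul]
  · intro k _ hk
    by_cases h1 : ht r ≤ ht k
    · rw [hg r k h1, Matrix.one_apply_ne hk.symm, zero_mul]
    · by_cases h3 : k = c
      · subst h3
        exact absurd hrc h1
      · rw [hh k c ((not_le.1 h1).le.trans hrc), Matrix.one_apply_ne h3, mul_zero]
  · intro h
    exact absurd (Finset.mem_univ r) h

/-- **The unipotent group** `U`: the elements of `G` for which `g - 1` raises the height. -/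
def Uni (G : Subgroup (GL n R)) : Subgroup G where
  carrier := {g | ∀ r c, ht r ≤ ht c → g.1.1 r c = (1 : Matrix n n R) r c ∧ g⁻¹.1.1 r c = (1 : Matrix n n R) r c}
  one_mem' := fun r c _ => by simp
  mul_mem' := by
    intro g h hg hh r c hrc
    refine ⟨uni_mul ht (fun r c h => (hg r c h).1) (fun r c h => (hh r c h).1) r c hrc, ?_⟩
    rw [_root_.mul_inv_rev]
    exact uni_mul ht (fun r c h => (hh r c h).2) (fun r c h => (hg r c h).2) r c hrc
  inv_mem' := by
    intro g hg r c hrc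
    rw [inv_inv]
    exact ⟨(hg r c hrc).2, (hg r c hrc).1⟩

variable {K L : Type} [Field K] [Field L] [Algebra K L] (A : Subgroup (GL n L))

/-- The subgroup of `A` which is generated by the elements `g` which are fixed by the Galois group (it acts on the entries and by `σ` on the places of the entries: `g_(s r, s c) = s(g_(r, c))`) and unipotent upper
(`g - 1` raises the height) or unipotent lower (`g - 1` lowers the height). -/
def Fix (σ : (L ≃ₐ[K] L) → n → n) : Subgroup A :=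
  Subgroup.closure {g | (∀ s r c, g.1.1 (σ s r) (σ s c) = s (g.1.1 r c)) ∧
    ((∀ r c, ht r ≤ ht c → g.1.1 r c = (1 : Matrix n n L) r c) ∨ (∀ r c, ht c ≤ ht r → g.1.1 r c = (1 : Matrix n n L) r c))}

variable [Algebra ℝ R] {J : Type} [Fintype J]

variable {G₀ : Subgroup (GL n R)} {G : Subgroup G₀} (U : Subgroup G)

/-- The character `ψ(u) = e(∑ θ_i(u_i))` of `U`, `u_i` the entry of `u` at the place `a_i`, `e(x) = exp(2πix)`. -/
def psi (a : J → n × n) (θ : J → (R →ₗ[ℝ] ℝ)) (u : U) : ℂ := Complex.exp (2 * Real.pi * ((∑ i, θ i (u.1.1.1.1 (a i).1 (a i).2) : ℝ) : ℂ) * Complex.I)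

/-- `x ∈ U exp(d) Ω`, `exp(d)` the diagonal matrix with the entries `exp(d_i)`. -/
def InRange (Ω : Set (GL n R)) (d : n → ℝ) (x : G) : Prop :=
  ∃ u : U, ∃ ω ∈ Ω, x.1.1.1 = u.1.1.1.1 * Matrix.diagonal (fun i => algebraMap ℝ R (Real.exp (d i))) * ω.1

/-- **Nondegenerate characters**: `ψ` is trivial on `Γ ∩ U`, and for every `i` the form `z ↦ ∑_t θ_(t i)(t z)` on `L` is not zero (it is the restriction of the exponent of `ψ` to the root group of the orbit of
the simple root `α_i`; for `L = K` it is `θ_i`); `p : L → R` is the embedding, `σ` the action of the Galois group on the simple roots. -/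
def Gen [Fintype (L ≃ₐ[K] L)] (p : L →+* R) (Γ : Subgroup G) (a : J → n × n) (σ : (L ≃ₐ[K] L) → J → J) (θ : J → (R →ₗ[ℝ] ℝ)) : Prop :=
  (∀ i, ∃ z : L, ∑ t : L ≃ₐ[K] L, θ (σ t i) (p (t z)) ≠ 0) ∧ ∀ u : U, u.1 ∈ Γ → psi U a θ u = 1

end matrices

/-! ## 3. Number fields -/

section fields

/-- `x ∈ 𝔞`. -/
def InI {L : Type} [Field L] [NumberField L] (𝔞 : Ideal (𝓞 L)) (x : L) : Prop := ∃ y ∈ 𝔞, (y : L) = x

section ideals

variable {L : Type} [Field L] [NumberField L]

theorem InI.add {𝔞 : Ideal (𝓞 L)} {x y : L} (hx : InI 𝔞 x) (hy : InI 𝔞 y) : InI 𝔞 (x + y) := by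
  obtain ⟨a, ha, rfl⟩ := hx
  obtain ⟨c, hc, rfl⟩ := hy
  exact ⟨a + c, 𝔞.add_mem ha hc, by simp⟩

theorem InI.zero (𝔞 : Ideal (𝓞 L)) : InI 𝔞 (0 : L) := ⟨0, 𝔞.zero_mem, by simp⟩

theorem InI.sum {𝔞 : Ideal (𝓞 L)} {α : Type} (s : Finset α) (f : α → L) (h : ∀ k ∈ s, InI 𝔞 (f k)) : InI 𝔞 (∑ k ∈ s, f k) := by
  classical
  induction s using Finset.induction_on with
  | empty => simpa using InI.zero 𝔞
  | insert a s ha ih =>
    rw [Finset.sum_insert ha]
    exact (h a (Finset.mem_insert_self _ _)).add (ih fun k hk => h k (Finset.mem_insert_of_mem hk))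

theorem InI.mul {𝔞 : Ideal (𝓞 L)} {x y : L} (hx : InI 𝔞 x) (hy : InI ⊤ y) : InI 𝔞 (x * y) := by
  obtain ⟨a, ha, rfl⟩ := hx
  obtain ⟨c, _, rfl⟩ := hy
  exact ⟨a * c, 𝔞.mul_mem_right _ ha, by simp⟩

theorem InI.top {𝔞 : Ideal (𝓞 L)} {x : L} (hx : InI 𝔞 x) : InI ⊤ x := by
  obtain ⟨a, _, rfl⟩ := hx
  exact ⟨a, Submodule.mem_top, rfl⟩

end ideals

variable {K : Type} (L : Type) [Field K] [NumberField K] [Field L] [NumberField L] [Algebra K L]

/-- The ideal of `𝓞 L` generated by an ideal of `𝓞 K`. -/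
def up (𝔞 : Ideal (𝓞 K)) : Ideal (𝓞 L) := 𝔞.map (algebraMap (𝓞 K) (𝓞 L))

variable {L} (𝔫 : Ideal (𝓞 K)) (v : HeightOneSpectrum (𝓞 K)) (r s : ℕ)

/-- `v ^ j x ⊆ 𝔫 𝓞_L`. -/
def Den (j : ℕ) (x : L) : Prop := ∀ y ∈ v.asIdeal ^ j, InI (up L 𝔫) (algebraMap K L (y : K) * x)

/-- `x` is integral over the localisation of `𝓞 K` at `v` (integral at all places of `L` over `v`). -/
def IntV (x : L) : Prop := ∃ y : 𝓞 K, y ∉ v.asIdeal ∧ InI ⊤ (algebraMap K L (y : K) * x)

variable {n : Type} [Fintype n] [DecidableEq n] (ht : n → ℤ)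

/-- Entries of `g - 1` in `𝔫 𝓞_L`, lower entries (those which lower the height) in `v ^ (r + s) 𝓞_L`, diagonal blocks congruent to `1` modulo `v ^ r 𝓞_L`. -/
def Lev (g : Matrix n n L) : Prop :=
  ∀ i j, InI (up L 𝔫) ((g - 1) i j) ∧ (ht i < ht j → InI (up L (v.asIdeal ^ (r + s))) (g i j)) ∧ (ht i = ht j → InI (up L (v.asIdeal ^ r)) ((g - 1) i j))

/-- Entries integral at `v`, lower entries in `π ^ (r + s)`, diagonal blocks congruent to `1` modulo `π ^ r`. -/
def IwV (π : K) (g : Matrix n n L) : Prop :=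
  ∀ i j, IntV v (g i j) ∧ (ht i < ht j → IntV v ((algebraMap K L π)⁻¹ ^ (r + s) * g i j)) ∧ (ht i = ht j → IntV v ((algebraMap K L π)⁻¹ ^ r * (g - 1) i j))

/-- `g ∈ Γ_v λ(π)⁻¹`, `Γ_v` the group of level `r, s` at `v`, `λ(π)` the diagonal matrix with the entries `π ^ w_i`. -/
def AtV (π : K) (w : n → ℤ) (g : GL n L) : Prop :=
  IwV v r s ht π (g.1 * Matrix.diagonal fun i => algebraMap K L π ^ w i) ∧ IwV v r s ht π ((Matrix.diagonal fun i => algebraMap K L π ^ (-w i)) * g⁻¹.1)

theorem lev_mul {g h : Matrix n n L} (hg : Lev 𝔫 v r s ht g) (hk : Lev 𝔫 v r s ht h) : Lev 𝔫 v r s ht (g * h) := by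
  have hld : up L (v.asIdeal ^ (r + s)) ≤ up L (v.asIdeal ^ r) := Ideal.map_mono (Ideal.pow_le_pow_right (Nat.le_add_right r s))
  have int : ∀ a : Matrix n n L, (∀ r c, InI (up L 𝔫) ((a - 1) r c)) → ∀ r c, InI ⊤ (a r c) := by
    intro a ha r c
    have e : a r c = (a - 1) r c + (1 : Matrix n n L) r c := by simp
    rw [e]
    refine (ha r c).top.add ?_
    by_cases h : r = c
    · subst h
      rw [Matrix.one_apply_eq]
      exact ⟨1, Submodule.mem_top, by simp⟩
    · rw [Matrix.one_apply_ne h]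
      exact InI.zero _
  have mono : ∀ {x : L}, InI (up L (v.asIdeal ^ (r + s))) x → InI (up L (v.asIdeal ^ r)) x := fun ⟨y, hy, e⟩ => ⟨y, hld hy, e⟩
  have ig := int g fun r c => (hg r c).1
  have ih := int h fun r c => (hk r c).1
  have e : g * h - 1 = (g - 1) * h + (h - 1) := by
    rw [sub_mul, one_mul]
    abel
  intro i c
  refine ⟨?_, ?_, ?_⟩
  · rw [e, Matrix.add_apply, Matrix.mul_apply]
    exact (InI.sum _ _ fun k _ => (hg i k).1.mul (ih k c)).add (hk i c).1
  · intro hrc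
    rw [Matrix.mul_apply]
    refine InI.sum _ _ fun k _ => ?_
    by_cases h1 : ht i < ht k
    · exact ((hg i k).2.1 h1).mul (ih k c)
    · rw [mul_comm]
      exact ((hk k c).2.1 ((not_lt.1 h1).trans_lt hrc)).mul (ig i k)
  · intro hrc
    rw [e, Matrix.add_apply, Matrix.mul_apply]
    refine (InI.sum _ _ fun k _ => ?_).add ((hk i c).2.2 hrc)
    rcases lt_trichotomy (ht i) (ht k) with h1 | h1 | h1
    · have hrk : i ≠ k := by
        rintro rfl
        exact absurd h1 (lt_irrefl _)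
      have e1 : (g - 1) i k = g i k := by rw [Matrix.sub_apply, Matrix.one_apply_ne hrk, sub_zero]
      rw [e1]
      exact (mono ((hg i k).2.1 h1)).mul (ih k c)
    · exact ((hg i k).2.2 h1).mul (ih k c)
    · rw [mul_comm]
      exact (mono ((hk k c).2.1 (h1.trans_le hrc.le))).mul (hg i k).1.top

theorem lev_one : Lev 𝔫 v r s ht (1 : Matrix n n L) := by
  intro i j
  rw [sub_self]
  refine ⟨InI.zero _, fun h => ?_, fun _ => InI.zero _⟩
  rw [Matrix.one_apply_ne (by rintro rfl; exact absurd h (lt_irrefl _))]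
  exact InI.zero _

variable (A : Subgroup (GL n L))

/-- The elements `g` of `A` with `g`, `g⁻¹` of level `𝔫`, `r`, `s` (`Lev`). -/
def GamA : Subgroup A where
  carrier := {g | Lev 𝔫 v r s ht g.1.1 ∧ Lev 𝔫 v r s ht g⁻¹.1.1}
  one_mem' := by
    show Lev 𝔫 v r s ht (1 : Matrix n n L) ∧ Lev 𝔫 v r s ht (1 : A)⁻¹.1.1
    rw [inv_one]
    exact ⟨lev_one 𝔫 v r s ht, lev_one 𝔫 v r s ht⟩
  mul_mem' := by
    intro g h hg hh
    show Lev 𝔫 v r s ht (g * h).1.1 ∧ Lev 𝔫 v r s ht (g * h)⁻¹.1.1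
    rw [_root_.mul_inv_rev]
    exact ⟨lev_mul _ _ _ _ _ hg.1 hh.1, lev_mul _ _ _ _ _ hh.2 hg.2⟩
  inv_mem' := by
    intro g hg
    show Lev 𝔫 v r s ht g⁻¹.1.1 ∧ Lev 𝔫 v r s ht g⁻¹⁻¹.1.1
    rw [inv_inv]
    exact ⟨hg.2, hg.1⟩

/-- The elements of `A` over `𝓞_L[1/v]` with `g ≡ 1` modulo `𝔫` (`𝔫` prime to `v`). -/
def HG : Set A := {g | ∃ j, ∀ r c, Den 𝔫 v j ((g.1.1 - 1) r c) ∧ Den 𝔫 v j ((g⁻¹.1.1 - 1) r c)}

variable (K) (H : Subgroup A)

/-- **Hecke elements exist**: for every `w ∈ W` and every level there is an element of `H` over `𝓞_L[1/v]`, congruent to `1` modulo `𝔫`, in `Γ_v w(π)⁻¹`. -/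
def Ex (W : Set (n → ℤ)) : Prop :=
  ∀ (v : HeightOneSpectrum (𝓞 K)) (𝔫 : Ideal (𝓞 K)), ¬𝔫 ≤ v.asIdeal → ∀ r s : ℕ, ∀ w ∈ W, ∀ π : K, v.valuation K π = WithZero.exp (-1 : ℤ) → ∃ h ∈ H, h ∈ HG 𝔫 v A ∧ AtV v r s ht π w h.1

variable {K A H}

/-- **The arithmetic group** `Γ`: the image in `G` of the elements of `H` of level `𝔫`, `r`, `s`. -/
def Gam {G : Type} [Group G] (τ : H →* G) : Subgroup G := ((GamA 𝔫 v r s ht A).subgroupOf H).map τ

variable {R : Type} [CommRing R] [TopologicalSpace R] [Algebra ℝ R] (p : L →+* R) {J : Type} [Fintype J] {G₀ : Subgroup (GL n R)} {G : Subgroup G₀}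

variable (K) in
/-- **The density theorem for groups of matrices** `H ⊆ A` over `L` and `U ⊆ G ⊆ G₀` over `R`, the embeddings `p : L → R`, `τ : H → G`, the grading `ht`, the places `a_i` of the matrix entries which give the
characters of `U`, the action `σ` of the Galois group on these places and the admissible data `Adm`. For `φ ∈ C_c(G)` and a compact set `Ω` there is a constant `C` such that for every place `v` of `K`, every ideal
`𝔫 ≠ 0` prime to `v`, all `r`, `s` and all admissible data (weights `w_k` of the Hecke elements, their degrees `q_k`, the exponents `d_i` of a torus element, the volume `X`), for Hecke elements `h_k ∈ Γ_v w_k(π)⁻¹`, a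
nondegenerate character `ψ` given by `θ` and `x ∈ U exp(d) Ω` the two inequalities of `Bounds` hold with `C X`. -/
def Est (U : Subgroup G) (τ : H →* G) (a : J → n × n) (σ : (L ≃ₐ[K] L) → J → J) (Adm : Ideal (𝓞 K) → HeightOneSpectrum (𝓞 K) → ℕ → ℕ → (m : ℕ) → (Fin m → n → ℤ) → (Fin m → ℝ) → (n → ℝ) → ℝ → Prop) : Prop :=
  ∀ [MeasurableSpace G] [BorelSpace G] [MeasurableSpace U] [BorelSpace U] (μ : Measure G) [μ.IsHaarMeasure] (φ : G → ℂ), Continuous φ → HasCompactSupport φ → ∀ Ω : Set (GL n R), IsCompact Ω → ∃ C : ℝ,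
    ∀ (v : HeightOneSpectrum (𝓞 K)) (𝔫 : Ideal (𝓞 K)), 𝔫 ≠ ⊥ → ¬𝔫 ≤ v.asIdeal → ∀ (r s m : ℕ) (w : Fin m → n → ℤ) (q : Fin m → ℝ) (d : n → ℝ) (X : ℝ), Adm 𝔫 v r s m w q d X →
    ∀ π : K, v.valuation K π = WithZero.exp (-1 : ℤ) → ∀ h : Fin m → H, (∀ k, (h k).1 ∈ HG 𝔫 v A ∧ AtV v r s ht π (w k) (h k).1.1) →
    ∀ θ : J → (R →ₗ[ℝ] ℝ), Gen U p (Gam 𝔫 v r s ht τ) a σ θ → ∀ x : G, InRange U Ω d x → ∀ (ν : Measure U) [ν.IsHaarMeasure],
    Bounds U (Gam 𝔫 v r s ht τ) (1 ≤ r + s) μ ν φ (psi U a θ) x m (fun k => τ (h k)) q (C * X)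

variable (K H) in
/-- `Est` for the closure `G` of `H` in `GL(R)` (in the closure `G₀` of `A`) and its unipotent group `U`. -/
def EstCl [IsTopologicalRing R] (a : J → n × n) (σ : (L ≃ₐ[K] L) → J → J) (Adm : Ideal (𝓞 K) → HeightOneSpectrum (𝓞 K) → ℕ → ℕ → (m : ℕ) → (Fin m → n → ℤ) → (Fin m → ℝ) → (n → ℝ) → ℝ → Prop) : Prop :=
  Est K ht p ((Uni ht (Cl (GeneralLinearGroup.map p) A)).subgroupOf (Cl (em (GeneralLinearGroup.map p) A) H)) (em (em (GeneralLinearGroup.map p) A) H) a σ Adm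

end fields

/-! ## 4. Root systems -/

section roots

variable {ι M N : Type} [Fintype ι] [DecidableEq ι] [AddCommGroup M] [Module ℚ M] [AddCommGroup N] [Module ℚ N]
  {P : RootPairing ι ℚ M N} [P.IsCrystallographic] [P.IsRootSystem] (b : P.Base)

/-- The value `⟨β, λ⟩` of the coweight `λ = ∑ c_j α_j^∨` on a root. -/
def pr (c : b.support → ℤ) (β : ι) : ℤ := ∑ j, c j * P.pairingIn ℤ β j

/-- `Φ_i`: the positive roots which contain the simple root `α_i`. -/
def Phi (i : b.support) : Finset ι := Finset.univ.filter fun β => 0 < b.toWeightBasis.repr (P.root β) i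

/-- `w Φ_i = - Φ_j` for some element `w` of the Weyl group. -/
def Opp (i j : b.support) : Prop :=
  ∃ w ∈ Subgroup.closure (Set.range P.reflectionPerm), ∀ β, β ∈ Phi b i ↔ P.reflectionPerm (w β) (w β) ∈ Phi b j

/-- The coefficient of the simple root `α_l` in a root. -/
def mc (l : b.support) (β : ι) : ℤ := b.toWeightBasisInt.repr (P.rootSpanMem ℤ β) l

/-- The sum of `f` over `Φ_i` plus the sum of `g` over `Φ_j`. -/
def S2 (i j : b.support) (f g : ι → ℤ) : ℤ := ∑ β ∈ Phi b i, f β + ∑ β ∈ Phi b j, g β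

/-- **The size condition** for two dominant coweights `λ`, `λ'`, with `q = N(v)`, `N = N(𝔫)`: for `w Φ_i = - Φ_j`, `S = ∑_{β ∈ Φ_i} ⟨β, λ⟩ + ∑_{β ∈ Φ_j} ⟨β, λ'⟩` and `H` the sum of the heights of the roots in `Φ_i` and
in `Φ_j`: `q ^ S ≤ (N q ^ (r + s)) ^ |Φ_i| N ^ H`, or for some simple root `α_l` and `T ≥ m_l(β)` for all `β`: `q ^ (T S) ≤ (N q ^ (r + s)) ^ P N ^ (T H)`, `P` the sum of the coefficients `m_l` of the roots in `Φ_i` and
in `Φ_j`. -/
def Sz (N q : ℝ) (r s : ℕ) (c c' : b.support → ℤ) : Prop :=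
  ∀ i j, Opp b i j → q ^ S2 b i j (pr b c) (pr b c') ≤ (N * q ^ (r + s)) ^ (Phi b i).card * N ^ S2 b i j b.height b.height ∨
    ∃ (l : b.support) (T : ℕ), (∀ β, mc b l β ≤ T) ∧ q ^ (T * S2 b i j (pr b c) (pr b c')) ≤ (N * q ^ (r + s)) ^ S2 b i j (mc b l) (mc b l) * N ^ (T * S2 b i j b.height b.height)

/-- The weights of the coweight `λ = ∑ c_j α_j^∨` on the adjoint representation. -/
def wt (c : b.support → ℤ) : b.support ⊕ ι → ℤ := Sum.elim (fun _ => 0) (pr b c)

/-- **A diagram automorphism**: a permutation of the roots which preserves the base and the Cartan integers. -/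
structure DA (σ : Equiv.Perm ι) : Prop where
  base : ∀ i, σ i ∈ b.support ↔ i ∈ b.support
  pair : ∀ β γ, P.pairingIn ℤ (σ β) (σ γ) = P.pairingIn ℤ β γ

variable {b} in
/-- The action of a diagram automorphism on the simple roots. -/
def sp {σ : Equiv.Perm ι} (h : DA b σ) (i : b.support) : b.support := ⟨σ i, (h.base i).2 i.2⟩

/-- **An action of the Galois group on the Dynkin diagram.** -/
structure QS (K L : Type) [Field K] [Field L] [Algebra K L] where
  /-- The action on the roots. -/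
  act : (L ≃ₐ[K] L) →* Equiv.Perm ι
  /-- It preserves the base and the Cartan integers. -/
  da : ∀ s, DA b (act s)

variable {b} {K L : Type} [Field K] [NumberField K] [Field L] [Algebra K L] (Q : QS b K L)

/-- **The admissible data** (`N = N(𝔫)`, `q = N(v)` the norms over `K`): `w_k` are the weights of distinct dominant coweights `λ_k` fixed by the Galois group of which all pairs satisfy the size condition,
`q_k = q ^ (∑_{β > 0} ⟨β, λ_k⟩)`, and for a linear form `A` fixed by the Galois group with `log N ≤ [K : ℚ] A(α_i)` for the simple roots `α_i`: `d` is `A(β)` at the root `β` (`0` at the zero weights) and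
`X = ∏_{β > 0} (exp([K : ℚ] A(β)) / N)`. -/
def Adm (𝔫 : Ideal (𝓞 K)) (v : HeightOneSpectrum (𝓞 K)) (r s m : ℕ) (w : Fin m → b.support ⊕ ι → ℤ) (q : Fin m → ℝ) (d : b.support ⊕ ι → ℝ) (X : ℝ) : Prop :=
  ∃ (c : Fin m → b.support → ℤ) (A : M →ₗ[ℚ] ℝ), Function.Injective c ∧ (∀ k s i, c k (sp (Q.da s) i) = c k i) ∧ (∀ k (i : b.support), 0 ≤ pr b (c k) i) ∧
    (∀ k k', Sz b (Ideal.absNorm 𝔫) (Ideal.absNorm v.asIdeal) r s (c k) (c k')) ∧ (∀ s β, A (P.root (Q.act s β)) = A (P.root β)) ∧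
    (∀ i : b.support, Real.log (Ideal.absNorm 𝔫) ≤ Module.finrank ℚ K * A (P.root i)) ∧
    (∀ k, w k = wt b (c k)) ∧ (∀ k, q k = (Ideal.absNorm v.asIdeal : ℝ) ^ (∑ β with 0 < b.height β, pr b (c k) β)) ∧
    d = Sum.elim (fun _ => 0) (fun β => A (P.root β)) ∧ X = ∏ β with 0 < b.height β, Real.exp (Module.finrank ℚ K * A (P.root β)) / (Ideal.absNorm 𝔫 : ℝ)

end roots

/-! ## 5. The statement -/

section statement

variable {ι M N : Type} [Fintype ι] [DecidableEq ι] [AddCommGroup M] [Module ℚ M] [AddCommGroup N] [Module ℚ N]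
  {P : RootPairing ι ℚ M N} [P.IsCrystallographic] (b : P.Base) {K L : Type} [Field K] [NumberField K] [Field L] [NumberField L] [Algebra K L]

variable (L) in
/-- The split group `G(L)`, generated by the `exp(t e_i)`, `exp(t f_i)`, `t ∈ L`. -/
def GL' : Subgroup (GL (b.support ⊕ ι) L) := Grp RootPairing.GeckConstruction.e RootPairing.GeckConstruction.f L

variable {b} in
/-- **The quasi-split group `G(K)`**. -/
def GQ (Q : QS b K L) : Subgroup (GL' b L) := Fix (Sum.elim (fun _ => 0) b.height) (GL' b L) fun s => Sum.map (sp (Q.da s)) (Q.act s)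

variable {b} in
/-- **The density theorem** for the globally generic spectrum of the quasi-split simple group of type `(P, Q)` over `K`, with the existence of the Hecke elements for all coweights `λ = ∑ c_j α_j^∨` fixed by the Galois
group. The entry of `u ∈ U` in the row of the zero weight of `α_i` and the column of the root `-α_i` is the coordinate of `u` at `α_i`. -/
def Density [P.IsRootSystem] (Q : QS b K L) : Prop :=
  Ex K (Sum.elim (fun _ => 0) b.height) (GL' b L) (GQ Q) {w | ∃ c, (∀ s i, c (sp (Q.da s) i) = c i) ∧ w = wt b c} ∧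
  EstCl K (Sum.elim (fun _ => 0) b.height) (GQ Q) (mixedEmbedding L) (fun i => (Sum.inl i, Sum.inr (P.reflectionPerm i i))) (fun s => sp (Q.da s)) (Adm Q)

end statement

end

end Pool.Agent.Lib.L1S.PQ
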